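import Pool.Agent.Run7.h480.BF.Iface

/-!
Pieces POL1 and POL2 of project BF (problem MP_b9d149_co).
-/

set_option autoImplicit false

open Set Module Filter Topology

namespace Run7.h586.BF

open Run7.h480.BF

set_option linter.unusedSectionVars false

variable {E : Type} [Fintype E] {n : ℕ} {f : Fin n → ((E → ℝ) →ₗ[ℝ] ℝ)}

theorem mem_Kf {Z : Set (Fin n)} {v : E → ℝ} : v ∈ Kf f Z ↔ ∀ i ∈ Z, f i v = 0 := by
  simp [Kf, Submodule.mem_iInf]

theorem Kf_anti {Z Z' : Set (Fin n)} (h : Z ⊆ Z') : Kf f Z' ≤ Kf f Z := by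
  intro v hv
  rw [mem_Kf] at hv ⊢
  exact fun i hi => hv i (h hi)

theorem self_mem (x : E → ℝ) : x ∈ Kf f (Zf f x) := by
  rw [mem_Kf]; exact fun i hi => hi

theorem Df_le {x y : E → ℝ} (h : Zf f x ⊆ Zf f y) : Df f y ≤ Df f x :=
  Submodule.finrank_mono (Kf_anti h)

theorem Df_lt {x y : E → ℝ} (h : Zf f x ⊆ Zf f y) {i : Fin n} (hi : i ∈ Zf f y)
    (hi' : i ∉ Zf f x) : Df f y < Df f x := by
  apply Submodule.finrank_lt_finrank_of_lt
  refine lt_of_le_of_ne (Kf_anti h) ?_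
  intro hc
  have h1 : x ∈ Kf f (Zf f y) := by rw [hc]; exact self_mem x
  rw [mem_Kf] at h1
  exact hi' (h1 i hi)

theorem Df_ge (x : E → ℝ) : finrank ℝ (Kf f univ) ≤ Df f x :=
  Submodule.finrank_mono (Kf_anti (subset_univ _))

theorem Df_gt {x : E → ℝ} {i : Fin n} (hi : f i x ≠ 0) :
    finrank ℝ (Kf f univ) + 1 ≤ Df f x := by
  have h : Kf f univ < Kf f (Zf f x) := by
    refine lt_of_le_of_ne (Kf_anti (subset_univ _)) ?_
    intro hc
    have h1 : x ∈ Kf f univ := by rw [hc]; exact self_mem x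
    rw [mem_Kf] at h1
    exact hi (h1 i (mem_univ i))
  exact Submodule.finrank_lt_finrank_of_lt h

theorem Zf_add {x y : E → ℝ} (hx : x ∈ Cf f) (hy : y ∈ Cf f) :
    Zf f (x + y) = Zf f x ∩ Zf f y := by
  ext i
  have h1 := hx i
  have h2 := hy i
  simp only [Zf, mem_setOf_eq, mem_inter_iff, map_add]
  constructor
  · intro h
    constructor <;> linarith
  · rintro ⟨h, h'⟩
    linarith

theorem add_mem' {x y : E → ℝ} (hx : x ∈ Cf f) (hy : y ∈ Cf f) : x + y ∈ Cf f := by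
  intro i
  rw [map_add]
  exact add_nonneg (hx i) (hy i)

/-- Leaving the cone from `x` in direction `v`. -/
theorem exit {x : E → ℝ} (hx : x ∈ Cf f) {v : E → ℝ} (hv : v ∈ Kf f (Zf f x))
    (hneg : ∃ i, f i v < 0) : ∃ s : ℝ, 0 < s ∧ x + s • v ∈ Cf f ∧ Zf f x ⊆ Zf f (x + s • v) ∧
      ∃ i ∈ Zf f (x + s • v), i ∉ Zf f x := by
  classical
  rw [mem_Kf] at hv
  obtain ⟨i₀, hi₀⟩ := hneg
  obtain ⟨i₁, hi₁, hmin⟩ := Finset.exists_min_image (Finset.univ.filter (fun i => f i v < 0))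
    (fun i => f i x / (- f i v)) ⟨i₀, by simpa using hi₀⟩
  simp only [Finset.mem_filter, Finset.mem_univ, true_and] at hi₁ hmin
  have hpos : ∀ i, f i v < 0 → 0 < f i x := by
    intro i hi
    rcases (hx i).lt_or_eq with h | h
    · exact h
    · exact absurd (hv i h.symm) (ne_of_lt hi)
  have hs : 0 < f i₁ x / (- f i₁ v) := div_pos (hpos i₁ hi₁) (by linarith)
  refine ⟨f i₁ x / (- f i₁ v), hs, ?_, ?_, i₁, ?_, ?_⟩
  · intro i
    rw [map_add, map_smul, smul_eq_mul]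
    by_cases hi : f i v < 0
    · have h1 := hmin i hi
      have h2 : 0 < - f i v := by linarith
      rw [le_div_iff₀ h2] at h1
      linarith
    · push Not at hi
      exact add_nonneg (hx i) (mul_nonneg hs.le hi)
  · intro i hi
    have h1 := hv i hi
    have h2 : f i x = 0 := hi
    show f i _ = 0
    rw [map_add, map_smul, h1, h2]
    simp
  · show f i₁ _ = 0
    rw [map_add, map_smul, smul_eq_mul]
    have h2 : f i₁ v ≠ 0 := ne_of_lt hi₁
    rw [div_neg, neg_mul, div_mul_cancel₀ _ h2]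
    ring
  · intro h
    exact absurd h (hpos i₁ hi₁).ne'

/-- **POL1**. -/
theorem t_POL1 : S_POL1 := by
  intro E _ n f T x hx hxT
  obtain ⟨m, hm⟩ : ∃ m, Df f x = m := ⟨_, rfl⟩
  induction m using Nat.strong_induction_on generalizing x with
  | _ m ih =>
  obtain ⟨i₀, hi₀T, hi₀⟩ := hxT
  by_cases hD : Df f x = finrank ℝ (Kf f univ) + 1
  · exact ⟨x, hx, ⟨i₀, hi₀T, hi₀⟩, subset_rfl, hD⟩
  have hD2 : finrank ℝ (Kf f univ) + 2 ≤ Df f x := by
    have := Df_gt hi₀
    omega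
  -- the vector `v`
  obtain ⟨v, hv, hvn⟩ : ∃ v ∈ Kf f (Zf f x), v ∉ Kf f univ ⊔ Submodule.span ℝ {x} := by
    by_contra hcon
    push Not at hcon
    have h1 : Kf f (Zf f x) ≤ Kf f univ ⊔ Submodule.span ℝ {x} := hcon
    have h2 := Submodule.finrank_mono h1
    have h3 := Submodule.finrank_add_le_finrank_add_finrank (Kf f univ) (Submodule.span ℝ {x})
    have hx0 : x ≠ 0 := fun h => hi₀ (by rw [h, map_zero])
    have h4 := finrank_span_singleton (K := ℝ) hx0
    have h5 : Df f x = finrank ℝ (Kf f (Zf f x)) := rfl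
    omega
  -- a version with a negative value
  obtain ⟨v, hv, hvn, hneg⟩ : ∃ v ∈ Kf f (Zf f x), v ∉ Kf f univ ⊔ Submodule.span ℝ {x} ∧
      ∃ i, f i v < 0 := by
    by_cases hn : ∃ i, f i v < 0
    · exact ⟨v, hv, hvn, hn⟩
    · push Not at hn
      refine ⟨-v, (Submodule.neg_mem_iff _).2 hv, fun h => hvn ((Submodule.neg_mem_iff _).1 h), ?_⟩
      by_contra hcon
      push Not at hcon
      apply hvn
      apply Submodule.mem_sup_left
      rw [mem_Kf]
      intro i _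
      have h1 := hn i
      have h2 := hcon i
      rw [map_neg] at h2
      linarith
  obtain ⟨s, hs, hy, hZ, i₁, hi₁, hi₁'⟩ := exit hx hv hneg
  have hlt := Df_lt hZ hi₁ hi₁'
  by_cases hT : ∃ i ∈ T, f i (x + s • v) ≠ 0
  · obtain ⟨y, h1, h2, h3, h4⟩ := ih _ (by omega) _ hy hT rfl
    exact ⟨y, h1, h2, hZ.trans h3, h4⟩
  push Not at hT
  -- direction `-y₁`
  have hyK : -(x + s • v) ∈ Kf f (Zf f x) := by
    rw [mem_Kf]
    intro i hi
    have : f i (x + s • v) = 0 := hZ hi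
    rw [map_neg, this, neg_zero]
  have hneg2 : ∃ i, f i (-(x + s • v)) < 0 := by
    by_contra hcon
    push Not at hcon
    apply hvn
    have h1 : x + s • v ∈ Kf f univ := by
      rw [mem_Kf]
      intro i _
      have h1 := hcon i
      have h2 := hy i
      rw [map_neg] at h1
      linarith
    have h2 : v = s⁻¹ • (x + s • v) + (-s⁻¹) • x := by
      rw [smul_add, smul_smul, inv_mul_cancel₀ hs.ne', one_smul, neg_smul]
      abel
    rw [h2]
    exact Submodule.add_mem_sup (Submodule.smul_mem _ _ h1)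
      (Submodule.smul_mem _ _ (Submodule.mem_span_singleton_self x))
  obtain ⟨s', hs', hy', hZ', i₂, hi₂, hi₂'⟩ := exit hx hyK hneg2
  have hlt' := Df_lt hZ' hi₂ hi₂'
  have hT' : ∃ i ∈ T, f i (x + s' • (-(x + s • v))) ≠ 0 := by
    refine ⟨i₀, hi₀T, ?_⟩
    rw [map_add, map_smul, map_neg, hT i₀ hi₀T]
    simpa using hi₀
  obtain ⟨y, h1, h2, h3, h4⟩ := ih _ (by omega) _ hy' hT' rfl
  exact ⟨y, h1, h2, hZ'.trans h3, h4⟩

end Run7.h586.BF
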