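import Pool.Agent.Run7.h586.BF.Pol1

/-!
Piece POL2 of project BF (problem MP_b9d149_co).
-/

set_option autoImplicit false

open Set Module Filter Topology

namespace Run7.h586.BF

open Run7.h480.BF

set_option linter.unusedSectionVars false

variable {E : Type} [Fintype E] {n : ℕ} {f : Fin n → ((E → ℝ) →ₗ[ℝ] ℝ)}

/-- The sweep. -/
theorem sweep (hP1 : S_POL1) {T : Set (Fin n)} {x y z₀ : E → ℝ} (hx : x ∈ Cf f) (hy : y ∈ Cf f)
    (hz : z₀ ∈ Cf f) (hZz : Zf f (x + y) ⊆ Zf f z₀)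
    (hout : ∀ t ∈ Icc (0 : ℝ) 1, ∀ s : ℝ, 0 ≤ s → ((1 - t) • x + t • y) - s • z₀ ∈ Cf f →
      ∃ i ∈ T, f i (((1 - t) • x + t • y) - s • z₀) ≠ 0)
    (hx0 : ∃ i, 0 < f i z₀ ∧ f i x = 0) (hy0 : ∃ i, 0 < f i z₀ ∧ f i y = 0)
    (hxD : Df f x = finrank ℝ (Kf f univ) + 1) (hyD : Df f y = finrank ℝ (Kf f univ) + 1)
    (hxT : ∃ i ∈ T, f i x ≠ 0) (hyT : ∃ i ∈ T, f i y ≠ 0)
    (ih : ∀ a b : E → ℝ, a ∈ Cf f → b ∈ Cf f → Df f a = finrank ℝ (Kf f univ) + 1 →
      Df f b = finrank ℝ (Kf f univ) + 1 → (∃ i ∈ T, f i a ≠ 0) → (∃ i ∈ T, f i b ≠ 0) →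
      Df f (a + b) < Df f (x + y) → Relation.ReflTransGen (PRel f T) a b) :
    Relation.ReflTransGen (PRel f T) x y := by
  classical
  have hI : (Finset.univ.filter (fun i => 0 < f i z₀)).Nonempty := by
    obtain ⟨i, hi, _⟩ := hx0
    exact ⟨i, by simpa using hi⟩
  set I := Finset.univ.filter (fun i => 0 < f i z₀) with hIdef
  have hmemI : ∀ i, i ∈ I ↔ 0 < f i z₀ := by intro i; simp [hIdef]
  set r : Fin n → ℝ → ℝ := fun i t => ((1 - t) * f i x + t * f i y) / f i z₀ with hr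
  set s : ℝ → ℝ := fun t => I.inf' hI (fun i => r i t) with hs
  set e : ℝ → (E → ℝ) := fun t => ((1 - t) • x + t • y) - s t • z₀ with he
  have hfe : ∀ i t, f i (e t) = ((1 - t) * f i x + t * f i y) - s t * f i z₀ := by
    intro i t
    simp only [he, map_sub, map_add, map_smul, smul_eq_mul]
  have hnum : ∀ i, ∀ t ∈ Icc (0 : ℝ) 1, 0 ≤ (1 - t) * f i x + t * f i y := by
    intro i t ht
    exact add_nonneg (mul_nonneg (by linarith [ht.2]) (hx i)) (mul_nonneg ht.1 (hy i))
  have hsle : ∀ t, ∀ i ∈ I, s t ≤ r i t := fun t i hi => Finset.inf'_le _ hi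
  have hsex : ∀ t, ∃ i ∈ I, s t = r i t := fun t => Finset.exists_mem_eq_inf' hI _
  have hs0 : ∀ t ∈ Icc (0 : ℝ) 1, 0 ≤ s t := by
    intro t ht
    obtain ⟨i, hi, h⟩ := hsex t
    rw [h]
    exact div_nonneg (hnum i t ht) ((hmemI i).1 hi).le
  have heC : ∀ t ∈ Icc (0 : ℝ) 1, e t ∈ Cf f := by
    intro t ht i
    rw [hfe]
    by_cases hi : i ∈ I
    · have h1 := hsle t i hi
      have h2 := (hmemI i).1 hi
      rw [hr] at h1
      simp only at h1
      rw [le_div_iff₀ h2] at h1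
      linarith
    · have h2 : f i z₀ = 0 := by
        have h3 := hz i
        rw [hmemI] at hi
        push Not at hi
        linarith
      rw [h2, mul_zero, sub_zero]
      exact hnum i t ht
  have heZ : ∀ t, Zf f (x + y) ⊆ Zf f (e t) := by
    intro t i hi
    have h1 : f i z₀ = 0 := hZz hi
    rw [Zf_add hx hy] at hi
    have h2 : f i x = 0 := hi.1
    have h3 : f i y = 0 := hi.2
    show f i (e t) = 0
    rw [hfe, h1, h2, h3]
    ring
  have heT : ∀ t ∈ Icc (0 : ℝ) 1, ∃ i ∈ T, f i (e t) ≠ 0 := fun t ht =>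
    hout t ht (s t) (hs0 t ht) (heC t ht)
  have hei : ∀ t, ∀ i ∈ I, s t = r i t → f i (e t) = 0 := by
    intro t i hi h
    rw [hfe, h]
    have h2 := (hmemI i).1 hi
    simp only [hr]
    field_simp
    ring
  have he0 : e 0 = x := by
    obtain ⟨i, hi, h⟩ := hx0
    have h1 := hsle 0 i ((hmemI i).2 hi)
    have h2 := hs0 0 ⟨le_rfl, zero_le_one⟩
    have h3 : r i 0 = 0 := by simp [hr, h]
    have h4 : s 0 = 0 := by linarith
    simp only [he, h4]
    simp
  have he1 : e 1 = y := by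
    obtain ⟨i, hi, h⟩ := hy0
    have h1 := hsle 1 i ((hmemI i).2 hi)
    have h2 := hs0 1 ⟨zero_le_one, le_rfl⟩
    have h3 : r i 1 = 0 := by simp [hr, h]
    have h4 : s 1 = 0 := by linarith
    simp only [he, h4]
    simp
  have hrc : ∀ i, Continuous (r i) := by
    intro i
    simp only [hr]
    fun_prop
  have hsc : Continuous s := Continuous.finset_inf'_apply hI (fun i _ => hrc i)
  have hcl : ∀ i, IsClosed {t : ℝ | s t = r i t} := fun i => isClosed_eq hsc (hrc i)
  -- the set `A`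
  set A : Set ℝ := {t | ∀ a : E → ℝ, a ∈ Cf f → Df f a = finrank ℝ (Kf f univ) + 1 →
    (∃ i ∈ T, f i a ≠ 0) → Zf f (e t) ⊆ Zf f a → Relation.ReflTransGen (PRel f T) x a} with hA
  have hA0 : (0 : ℝ) ∈ A := by
    intro a ha haD haT hZ
    rw [he0] at hZ
    refine Relation.ReflTransGen.single ⟨⟨hx, hxD, hxT⟩, ⟨ha, haD, haT⟩, x, hx, by omega,
      subset_rfl, hZ⟩
  have hstep : ∀ t ∈ Icc (0 : ℝ) 1, ∀ t' ∈ Icc (0 : ℝ) 1, ∀ i ∈ I, s t = r i t → s t' = r i t' →
      t ∈ A → t' ∈ A := by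
    intro t ht t' ht' i hi h h' htA b hb hbD hbT hZ
    obtain ⟨a, ha, haT, haZ, haD⟩ := hP1 E n f T (e t) (heC t ht) (heT t ht)
    refine (htA a ha haD haT haZ).trans (ih a b ha hb haD hbD haT hbT ?_)
    have h1 : i ∈ Zf f (a + b) := by
      rw [Zf_add ha hb]
      exact ⟨haZ (hei t i hi h), hZ (hei t' i hi h')⟩
    have h2 : i ∉ Zf f (x + y) := by
      intro hc
      have h3 : f i z₀ = 0 := hZz hc
      have h4 := (hmemI i).1 hi
      linarith
    refine Df_lt ?_ h1 h2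
    rw [Zf_add ha hb]
    exact subset_inter ((heZ t).trans haZ) ((heZ t').trans hZ)
  have hA1 : (1 : ℝ) ∈ A := by
    by_contra hcon
    set G : Set (Fin n) := {i | i ∈ I ∧ ∃ t ∈ Icc (0 : ℝ) 1, s t = r i t ∧ t ∈ A} with hG
    set P : Set ℝ := ⋃ i ∈ G, {t : ℝ | s t = r i t} with hP
    set Q : Set ℝ := ⋃ i ∈ {i | i ∈ I ∧ i ∉ G}, {t : ℝ | s t = r i t} with hQ
    have hPc : IsClosed P := (Set.toFinite G).isClosed_biUnion (fun i _ => hcl i)
    have hQc : IsClosed Q := (Set.toFinite _).isClosed_biUnion (fun i _ => hcl i)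
    have hcov : Icc (0 : ℝ) 1 ⊆ P ∪ Q := by
      intro t ht
      obtain ⟨i, hi, h⟩ := hsex t
      by_cases hiG : i ∈ G
      · left
        simp only [hP, mem_iUnion]
        exact ⟨i, hiG, h⟩
      · right
        simp only [hQ, mem_iUnion]
        exact ⟨i, ⟨hi, hiG⟩, h⟩
    have hne1 : (Icc (0 : ℝ) 1 ∩ P).Nonempty := by
      refine ⟨0, ⟨le_rfl, zero_le_one⟩, ?_⟩
      obtain ⟨i, hi, h⟩ := hsex 0
      simp only [hP, mem_iUnion]
      exact ⟨i, ⟨hi, 0, ⟨le_rfl, zero_le_one⟩, h, hA0⟩, h⟩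
    have hne2 : (Icc (0 : ℝ) 1 ∩ Q).Nonempty := by
      refine ⟨1, ⟨zero_le_one, le_rfl⟩, ?_⟩
      obtain ⟨i, hi, h⟩ := hsex 1
      simp only [hQ, mem_iUnion]
      refine ⟨i, ⟨hi, ?_⟩, h⟩
      rintro ⟨_, t, ht, h1, h2⟩
      exact hcon (hstep t ht 1 ⟨zero_le_one, le_rfl⟩ i hi h1 h h2)
    obtain ⟨t, ht, htP, htQ⟩ := isPreconnected_closed_iff.1 isPreconnected_Icc P Q hPc hQc hcov
      hne1 hne2
    simp only [hP, mem_iUnion] at htP
    simp only [hQ, mem_iUnion] at htQ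
    obtain ⟨i, ⟨hi, t₁, ht₁, h1, h2⟩, h3⟩ := htP
    obtain ⟨j, ⟨hj, hjG⟩, h4⟩ := htQ
    exact hjG ⟨hj, t, ht, h4, hstep t₁ ht₁ t ht i hi h1 h3 h2⟩
  refine hA1 y hy hyD hyT ?_
  rw [he1]

/-- **POL2**. -/
theorem t_POL2 (hP1 : S_POL1) : S_POL2 := by
  intro E _ n f T x y hx hy hxD hyD hxT hyT
  obtain ⟨m, hm⟩ : ∃ m, Df f (x + y) = m := ⟨_, rfl⟩
  induction m using Nat.strong_induction_on generalizing x y with
  | _ m ih =>
  have ih' : ∀ a b : E → ℝ, a ∈ Cf f → b ∈ Cf f → Df f a = finrank ℝ (Kf f univ) + 1 →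
      Df f b = finrank ℝ (Kf f univ) + 1 → (∃ i ∈ T, f i a ≠ 0) → (∃ i ∈ T, f i b ≠ 0) →
      Df f (a + b) < Df f (x + y) → Relation.ReflTransGen (PRel f T) a b :=
    fun a b ha hb haD hbD haT hbT hlt => ih _ (by omega) a b ha hb haD hbD haT hbT rfl
  have hxy : x + y ∈ Cf f := add_mem' hx hy
  by_cases hD : Df f (x + y) ≤ finrank ℝ (Kf f univ) + 2
  · refine Relation.ReflTransGen.single ⟨⟨hx, hxD, hxT⟩, ⟨hy, hyD, hyT⟩, x + y, hxy, hD, ?_, ?_⟩
    · rw [Zf_add hx hy]; exact inter_subset_left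
    · rw [Zf_add hx hy]; exact inter_subset_right
  push Not at hD
  have hzt : ∀ t ∈ Icc (0 : ℝ) 1, ∃ i ∈ T, 0 < f i ((1 - t) • x + t • y) := by
    intro t ht
    have h1 := ht.1
    have h2 := ht.2
    rcases h2.lt_or_eq with h | h
    · obtain ⟨i, hiT, hi⟩ := hxT
      refine ⟨i, hiT, ?_⟩
      have h3 : 0 < f i x := lt_of_le_of_ne (hx i) (Ne.symm hi)
      have h4 := mul_pos (sub_pos.2 h) h3
      have h5 := mul_nonneg h1 (hy i)
      rw [map_add, map_smul, map_smul, smul_eq_mul, smul_eq_mul]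
      linarith
    · obtain ⟨i, hiT, hi⟩ := hyT
      refine ⟨i, hiT, ?_⟩
      have h3 : 0 < f i y := lt_of_le_of_ne (hy i) (Ne.symm hi)
      rw [h, map_add, map_smul, map_smul, smul_eq_mul, smul_eq_mul]
      linarith
  by_cases hcase : ∃ z ∈ Cf f, Zf f (x + y) ⊆ Zf f z ∧ (∀ i ∈ T, f i z = 0) ∧ z ∉ Kf f univ
  · obtain ⟨z₀, hz, hZz, hzT, hzL⟩ := hcase
    obtain ⟨j, hj⟩ : ∃ j, 0 < f j z₀ := by
      by_contra hcon
      push Not at hcon
      apply hzL
      rw [mem_Kf]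
      intro i _
      exact le_antisymm (hcon i) (hz i)
    have key : ∀ w ∈ Cf f, Df f w = finrank ℝ (Kf f univ) + 1 → (∃ i ∈ T, f i w ≠ 0) →
        ∃ i, 0 < f i z₀ ∧ f i w = 0 := by
      intro w hw hwD hwT
      by_contra hcon
      push Not at hcon
      have h1 : Zf f w ⊆ Zf f z₀ := by
        intro i hi
        by_contra h
        exact hcon i (lt_of_le_of_ne (hz i) (Ne.symm h)) hi
      obtain ⟨i, hiT, hi⟩ := hwT
      have h2 := Df_lt h1 (hzT i hiT : i ∈ Zf f z₀) hi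
      have h3 := Df_gt (f := f) hj.ne'
      omega
    refine sweep hP1 hx hy hz hZz ?_ (key x hx hxD hxT) (key y hy hyD hyT) hxD hyD hxT hyT ih'
    intro t ht s _ _
    obtain ⟨i, hiT, hi⟩ := hzt t ht
    refine ⟨i, hiT, ?_⟩
    rw [map_sub, map_smul, hzT i hiT, smul_zero, sub_zero]
    exact hi.ne'
  · push Not at hcase
    obtain ⟨v, hv, hvn⟩ : ∃ v ∈ Kf f (Zf f (x + y)),
        v ∉ Kf f univ ⊔ (Submodule.span ℝ {x} ⊔ Submodule.span ℝ {y}) := by
      by_contra hcon
      push Not at hcon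
      have h1 : Kf f (Zf f (x + y)) ≤ Kf f univ ⊔ (Submodule.span ℝ {x} ⊔ Submodule.span ℝ {y}) :=
        hcon
      have h2 := Submodule.finrank_mono h1
      have h3 := Submodule.finrank_add_le_finrank_add_finrank (Kf f univ)
        (Submodule.span ℝ {x} ⊔ Submodule.span ℝ {y})
      have h3' := Submodule.finrank_add_le_finrank_add_finrank (Submodule.span ℝ {x})
        (Submodule.span ℝ {y})
      have hx0 : x ≠ 0 := by
        rintro rfl
        obtain ⟨i, _, hi⟩ := hxT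
        exact hi (map_zero _)
      have hy0 : y ≠ 0 := by
        rintro rfl
        obtain ⟨i, _, hi⟩ := hyT
        exact hi (map_zero _)
      have h4 := finrank_span_singleton (K := ℝ) hx0
      have h4' := finrank_span_singleton (K := ℝ) hy0
      have h5 : Df f (x + y) = finrank ℝ (Kf f (Zf f (x + y))) := rfl
      omega
    rw [mem_Kf] at hv
    -- small `ε`
    obtain ⟨ε, hε, hεp⟩ : ∃ ε : ℝ, 0 < ε ∧ ∀ i, i ∉ Zf f (x + y) → 0 < f i (x + y + ε • v) := by
      have hpos : ∀ i, i ∉ Zf f (x + y) → 0 < f i (x + y) := fun i hi =>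
        lt_of_le_of_ne (hxy i) (Ne.symm hi)
      have h1 : ∀ᶠ ε : ℝ in 𝓝 0, ∀ i, i ∉ Zf f (x + y) → 0 < f i (x + y + ε • v) := by
        rw [Filter.eventually_all]
        intro i
        by_cases hi : i ∈ Zf f (x + y)
        · exact Filter.Eventually.of_forall fun ε h => absurd hi h
        · have hc : Continuous fun ε : ℝ => f i (x + y) + ε * f i v := by fun_prop
          have h2 : (fun ε : ℝ => f i (x + y) + ε * f i v) 0 ∈ Ioi (0 : ℝ) := by
            simpa using hpos i hi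
          filter_upwards [hc.continuousAt.eventually_mem (isOpen_Ioi.mem_nhds h2)] with ε hε _
          have h3 : 0 < f i (x + y) + ε * f i v := hε
          rw [map_add (f i) (x + y), map_smul, smul_eq_mul]
          exact h3
      have h2 : ∀ᶠ ε : ℝ in 𝓝[>] 0, ∀ i, i ∉ Zf f (x + y) → 0 < f i (x + y + ε • v) :=
        h1.filter_mono nhdsWithin_le_nhds
      obtain ⟨ε, h3, h4⟩ := (h2.and self_mem_nhdsWithin).exists
      exact ⟨ε, h4, h3⟩
    set z₀ := x + y + ε • v with hz₀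
    have hZz : Zf f (x + y) ⊆ Zf f z₀ := by
      intro i hi
      show f i z₀ = 0
      have h1 : f i (x + y) = 0 := hi
      rw [hz₀, map_add (f i) (x + y), h1, map_smul, hv i hi]
      simp
    have hz : z₀ ∈ Cf f := by
      intro i
      by_cases hi : i ∈ Zf f (x + y)
      · exact (hZz hi).ge
      · exact (hεp i hi).le
    have hzn : z₀ ∉ Kf f univ ⊔ (Submodule.span ℝ {x} ⊔ Submodule.span ℝ {y}) := by
      intro hc
      apply hvn
      have h1 : x ∈ Kf f univ ⊔ (Submodule.span ℝ {x} ⊔ Submodule.span ℝ {y}) :=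
        Submodule.mem_sup_right (Submodule.mem_sup_left (Submodule.mem_span_singleton_self x))
      have h2 : y ∈ Kf f univ ⊔ (Submodule.span ℝ {x} ⊔ Submodule.span ℝ {y}) :=
        Submodule.mem_sup_right (Submodule.mem_sup_right (Submodule.mem_span_singleton_self y))
      have h3 : v = ε⁻¹ • (z₀ - (x + y)) := by
        rw [hz₀, add_sub_cancel_left, smul_smul, inv_mul_cancel₀ hε.ne', one_smul]
      rw [h3]
      exact Submodule.smul_mem _ _ (Submodule.sub_mem _ hc (Submodule.add_mem _ h1 h2))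
    have key : ∀ w ∈ Cf f, Df f w = finrank ℝ (Kf f univ) + 1 → Zf f (x + y) ⊆ Zf f w →
        ∃ i, 0 < f i z₀ ∧ f i w = 0 := by
      intro w hw hwD hwZ
      by_contra hcon
      push Not at hcon
      have h1 : Zf f w ⊆ Zf f (x + y) := by
        intro i hi
        by_contra h
        exact hcon i (hεp i h) hi
      have h2 := Df_le h1
      omega
    refine sweep hP1 hx hy hz hZz ?_ (key x hx hxD ?_) (key y hy hyD ?_) hxD hyD hxT hyT ih'
    · intro t ht s hs he
      by_contra hcon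
      push Not at hcon
      have h1 := hcase _ he ?_ hcon
      · obtain ⟨i, hiT, hi⟩ := hzt t ht
        rcases hs.lt_or_eq with h | h
        · apply hzn
          have h3 : z₀ = s⁻¹ • (((1 - t) • x + t • y) - (((1 - t) • x + t • y) - s • z₀)) := by
            rw [sub_sub_cancel, smul_smul, inv_mul_cancel₀ h.ne', one_smul]
          rw [h3]
          refine Submodule.smul_mem _ _ (Submodule.sub_mem _ ?_ (Submodule.mem_sup_left h1))
          exact Submodule.add_mem _
            (Submodule.smul_mem _ _ (Submodule.mem_sup_right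
              (Submodule.mem_sup_left (Submodule.mem_span_singleton_self x))))
            (Submodule.smul_mem _ _ (Submodule.mem_sup_right
              (Submodule.mem_sup_right (Submodule.mem_span_singleton_self y))))
        · rw [mem_Kf] at h1
          have h2 := h1 i (mem_univ i)
          rw [← h, zero_smul, sub_zero] at h2
          linarith
      · intro i hi
        have h3 : f i z₀ = 0 := hZz hi
        rw [Zf_add hx hy] at hi
        have h4 : f i x = 0 := hi.1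
        have h5 : f i y = 0 := hi.2
        show f i _ = 0
        rw [map_sub, map_add, map_smul, map_smul, map_smul, h3, h4, h5]
        simp
    · rw [Zf_add hx hy]; exact inter_subset_left
    · rw [Zf_add hx hy]; exact inter_subset_right

end Run7.h586.BF
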