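import Pool.Agent.Run7.h480.BF.Iface

/-!
Pieces STM and REF of project BF (problem MP_b9d149_co).
-/

set_option autoImplicit false

open Set Module Filter Topology

namespace Run7.h586.BF

open Run7.h480.BF

set_option linter.unusedSectionVars false

variable {E : Type} [Fintype E]

theorem poly_closed {σ : Set (E → ℝ)} (h : IsPoly σ) : IsClosed σ := by
  obtain ⟨n, f, rfl⟩ := h
  have : {x : E → ℝ | ∀ i, 0 ≤ f i x} = ⋂ i, {x | 0 ≤ f i x} := by
    ext x; simp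
  rw [this]
  refine isClosed_iInter fun i => ?_
  exact isClosed_le continuous_const (f i).continuous_of_finiteDimensional

theorem poly_add {σ : Set (E → ℝ)} (h : IsPoly σ) {x y : E → ℝ} (hx : x ∈ σ) (hy : y ∈ σ) :
    x + y ∈ σ := by
  obtain ⟨n, f, rfl⟩ := h
  intro i
  rw [map_add]
  exact add_nonneg (hx i) (hy i)

theorem poly_smul {σ : Set (E → ℝ)} (h : IsPoly σ) {x : E → ℝ} (hx : x ∈ σ) {t : ℝ} (ht : 0 ≤ t) :
    t • x ∈ σ := by
  obtain ⟨n, f, rfl⟩ := h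
  intro i
  rw [map_smul]
  exact mul_nonneg ht (hx i)

/-- **STM**. -/
theorem t_STM (hLOC : S_LOC) : S_STM := by
  intro E _ M N r S hM hN hS v hv hNv
  ext x
  obtain ⟨ε, hε, hloc⟩ := hLOC E M N r hM hN v hv hNv x
  constructor
  · rintro ⟨τ, ⟨σ, hσ, hvσ, rfl⟩, δ, hδ, hδσ⟩
    have hpos : 0 < min δ ε := lt_min hδ hε
    refine ((hloc (min δ ε) hpos (min_le_right _ _)).2).1 ?_
    rw [← hS.supp]
    refine ⟨σ, hσ, ?_⟩
    have hc := hS.fan.poly σ hσ
    have h1 : v + min δ ε • x = (1 - min δ ε / δ) • v + (min δ ε / δ) • (v + δ • x) := by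
      rw [smul_add, smul_smul, div_mul_cancel₀ _ hδ.ne', sub_smul, one_smul]
      abel
    rw [h1]
    refine poly_add hc (poly_smul hc hvσ ?_) (poly_smul hc hδσ (by positivity))
    rw [sub_nonneg]
    exact (div_le_one hδ).2 (min_le_left _ _)
  · intro hx
    have h1 : ∀ᶠ t : ℝ in 𝓝[>] 0, ∃ σ ∈ S, v + t • x ∈ σ := by
      filter_upwards [Ioc_mem_nhdsGT hε] with t ht
      have h2 := ((hloc t ht.1 ht.2).2).2 hx
      rw [← hS.supp] at h2
      obtain ⟨σ, hσ, h3⟩ := h2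
      exact ⟨σ, hσ, h3⟩
    obtain ⟨σ, hσ, hfr⟩ : ∃ σ ∈ S, ∃ᶠ t : ℝ in 𝓝[>] 0, v + t • x ∈ σ := by
      by_contra hcon
      push Not at hcon
      have h2 : ∀ σ ∈ S, ∀ᶠ t : ℝ in 𝓝[>] 0, v + t • x ∉ σ := fun σ hσ =>
        Filter.not_frequently.1 (by simpa using hcon σ hσ)
      have h3 := (hS.fan.fin.eventually_all).2 h2
      obtain ⟨t, ⟨σ, hσ, h4⟩, h5⟩ := (h1.and h3).exists
      exact h5 σ hσ h4
    have hvσ : v ∈ σ := by
      refine (poly_closed (hS.fan.poly σ hσ)).mem_of_frequently_of_tendsto hfr ?_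
      have hc : Continuous fun t : ℝ => v + t • x := by fun_prop
      have h2 : Tendsto (fun t : ℝ => v + t • x) (𝓝[>] 0) (𝓝 (v + (0 : ℝ) • x)) :=
        (hc.tendsto 0).mono_left nhdsWithin_le_nhds
      simpa using h2
    obtain ⟨t, h2, h3⟩ := (hfr.and_eventually self_mem_nhdsWithin).exists
    exact ⟨tan σ v, ⟨σ, hσ, hvσ, rfl⟩, t, h3, h2⟩

theorem wt_comb (x w : E → ℝ) (t : ℝ) (B : Set E) : wt (x + t • w) B = wt x B + t * wt w B := by
  simp only [wt]
  rw [Finset.mul_sum, ← Finset.sum_add_distrib]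
  refine Finset.sum_congr rfl fun i _ => ?_
  by_cases hi : i ∈ B <;> simp [hi]

/-- **REF**. -/
theorem t_REF (hMAT : S_MAT) (hSTM : S_STM) (hSTC : S_STC) (hSAME : S_SAME) (hFAN : S_FAN) :
    S_REF := by
  intro E _ M r S hM hS σ hσ
  obtain ⟨-, hcar, -, -, -⟩ := hFAN E S hS.fan ⟨σ, hσ⟩
  obtain ⟨w, hw⟩ := hcar σ hσ
  have hsub : ∀ x ∈ σ, x ∈ berg M := by
    intro x hx
    rw [← hS.supp]
    exact ⟨σ, hσ, hx⟩
  obtain ⟨N, hN, hNw⟩ := hMAT E M r hM w (hsub w hw.x_mem)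
  have hsame : ∀ w', Car S w' σ → Ini M w' = Ini M w := by
    intro w' hw'
    obtain ⟨N', hN', hNw'⟩ := hMAT E M r hM w' (hsub w' hw'.x_mem)
    have h1 := hSTM E M N r S hM hN hS w (hsub w hw.x_mem) hNw
    have h2 := hSTM E M N' r S hM hN' hS w' (hsub w' hw'.x_mem) hNw'
    have h3 := hSTC E S hS.fan w w' σ hw hw'
    have h4 : berg N = berg N' := by rw [← h1, ← h2, h3]
    have h5 := hSAME E N N' r hN hN' h4
    ext B
    rw [← hNw' B, ← h5 B, hNw B]
  have hp := hS.fan.poly σ hσ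
  refine ⟨w, hw.x_mem, ?_⟩
  intro x hx B hB
  have key : ∀ t : ℝ, 0 < t → Ini M (x + t • w) = Ini M w := by
    intro t ht
    apply hsame
    refine ⟨hσ, poly_add hp hx (poly_smul hp hw.x_mem ht.le), ?_⟩
    intro τ hτ hxτ
    apply hw.min τ hτ
    obtain ⟨g, hg, hgf⟩ := hS.fan.inter σ hσ τ hτ
    have h1 : x + t • w ∈ σ ∩ τ := ⟨poly_add hp hx (poly_smul hp hw.x_mem ht.le), hxτ⟩
    rw [hgf] at h1
    have h2 := h1.2
    rw [map_add, map_smul, smul_eq_mul] at h2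
    have h3 := hg x hx
    have h4 := hg w hw.x_mem
    have h5 : g w = 0 := by
      have h6 : t * g w ≤ 0 := by linarith
      have h7 : g w ≤ 0 := by
        by_contra hcon
        push Not at hcon
        have := mul_pos ht hcon
        linarith
      linarith
    have h6 : w ∈ σ ∩ τ := by
      rw [hgf]
      exact ⟨hw.x_mem, h5⟩
    exact h6.2
  refine ⟨hB.1, ?_⟩
  intro B' hB'
  have h1 : ∀ t : ℝ, 0 < t → wt x B + t * wt w B ≤ wt x B' + t * wt w B' := by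
    intro t ht
    have h2 : B ∈ Ini M (x + t • w) := by rw [key t ht]; exact hB
    have h3 := h2.2 B' hB'
    rwa [wt_comb, wt_comb] at h3
  have hc1 : Continuous fun t : ℝ => wt x B + t * wt w B := by fun_prop
  have hc2 : Continuous fun t : ℝ => wt x B' + t * wt w B' := by fun_prop
  have h2 : Tendsto (fun t : ℝ => wt x B + t * wt w B) (𝓝[>] 0) (𝓝 (wt x B + 0 * wt w B)) :=
    (hc1.tendsto 0).mono_left nhdsWithin_le_nhds
  have h3 : Tendsto (fun t : ℝ => wt x B' + t * wt w B') (𝓝[>] 0) (𝓝 (wt x B' + 0 * wt w B')) :=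
    (hc2.tendsto 0).mono_left nhdsWithin_le_nhds
  have h4 := le_of_tendsto_of_tendsto h2 h3 (by
    filter_upwards [self_mem_nhdsWithin] with t ht using h1 t ht)
  simpa using h4

end Run7.h586.BF
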